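import Pool.Agent.Y990.PL.Stm2

/-!
# Project PL: the recursion (task BOOT)
-/

set_option autoImplicit false

namespace Pool.Agent.Y686.PL

open Real

theorem boot : Pool.Agent.Y990.PL.S_boot := by
  intro α κ C3 C4 r0 hα0 hα1 hκ hC3 hC4 hr0
  have hκ0 : 0 < κ := by rw [hκ]; exact div_pos (by linarith) (by linarith)
  have hκe : κ * (2 + α) = 1 - α := by rw [hκ]; field_simp
  have hκ1 : κ < 1 / 2 := by nlinarith
  set p : ℝ := 2 * κ / (1 + κ) with hp
  have hp0 : 0 < p := by positivity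
  set B : ℝ := max 1 (8 * C4) with hB
  have hB1 : 1 ≤ B := le_max_left _ _
  have hB8 : 8 * C4 ≤ B := le_max_right _ _
  have hB0 : 0 < B := by linarith
  set Lam : ℝ := B ^ (1 / p) with hLam
  have hL1 : 1 ≤ Lam := Real.one_le_rpow hB1 (by positivity)
  have hL0 : 0 < Lam := by linarith
  have hLp : C4 * Lam ^ (-p) ≤ 1 / 8 := by
    have h1 : Lam ^ (-p) = B⁻¹ := by
      rw [hLam, ← Real.rpow_mul hB0.le]
      have : 1 / p * -p = -1 := by field_simp
      rw [this, Real.rpow_neg_one]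
    rw [h1, ← div_eq_mul_inv, div_le_iff₀ hB0]
    linarith
  set D : ℝ := C3 * (2 * Lam) ^ (α / 2) with hD
  have hD0 : 0 < D := by positivity
  refine ⟨max (4 * r0) (8 * D), le_trans (by linarith) (le_max_left _ _), ?_⟩
  intro th A hA hth hrec N hN
  have hA4 : 4 * r0 ≤ A := le_trans (le_max_left _ _) hA
  have hA8 : 8 * D ≤ A := le_trans (le_max_right _ _) hA
  have hA1 : 1 ≤ A := by linarith
  have hA0 : 0 < A := by linarith
  have hN1 : (1 : ℝ) ≤ N := by exact_mod_cast hN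
  have hN0 : (0 : ℝ) < N := by linarith
  set X : ℝ := Lam * (N : ℝ) ^ (1 + κ) / A with hX
  have hX0 : 0 < X := by positivity
  obtain ⟨ht0, ht1⟩ := hth N
  rcases le_or_gt r0 X with hc | hc
  · have hX1 : 1 ≤ X := le_trans hr0 hc
    set r : ℕ := ⌈X⌉₊ with hr
    have hrX : X ≤ r := Nat.le_ceil X
    have hrX2 : (r : ℝ) ≤ 2 * X := by
      have := (Nat.ceil_lt_add_one hX0.le).le
      linarith
    have hr00 : (0 : ℝ) < r := by linarith
    have h1 := hrec N r hN (le_trans hc hrX)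

    -- first term
    have e1 : (r : ℝ) ^ (-p) ≤ X ^ (-p) :=
      Real.rpow_le_rpow_of_nonpos hX0 hrX (by linarith)
    have e2 : X ^ (-p) = Lam ^ (-p) * (N : ℝ) ^ (-(2 * κ)) * A ^ p := by
      rw [hX, Real.div_rpow (by positivity) hA0.le, Real.mul_rpow hL0.le (by positivity),
        ← Real.rpow_mul hN0.le, Real.rpow_neg hA0.le, div_inv_eq_mul]
      congr 3
      rw [hp]
      field_simp
    have e3 : A ^ (2 / (1 + κ)) * A ^ p = A ^ (2 : ℝ) := by
      rw [← Real.rpow_add hA0]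
      congr 1
      rw [hp]
      field_simp
    have e4 : C4 * A ^ (2 / (1 + κ)) * (r : ℝ) ^ (-p) ≤
        1 / 8 * (A ^ (2 : ℝ) * (N : ℝ) ^ (-(2 * κ))) := by
      calc C4 * A ^ (2 / (1 + κ)) * (r : ℝ) ^ (-p)
          ≤ C4 * A ^ (2 / (1 + κ)) * X ^ (-p) := by gcongr
        _ = (C4 * Lam ^ (-p)) * ((A ^ (2 / (1 + κ)) * A ^ p) * (N : ℝ) ^ (-(2 * κ))) := by
            rw [e2]; ring
        _ ≤ 1 / 8 * ((A ^ (2 / (1 + κ)) * A ^ p) * (N : ℝ) ^ (-(2 * κ))) := by gcongr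
        _ = _ := by rw [e3]
    -- second term
    have f1 : (r : ℝ) ^ (α / 2) ≤ (2 * X) ^ (α / 2) := by
      apply Real.rpow_le_rpow hr00.le hrX2 (by positivity)
    have f2 : (2 * X) ^ (α / 2) = (2 * Lam) ^ (α / 2) * (N : ℝ) ^ ((1 + κ) * (α / 2)) *
        A ^ (-(α / 2)) := by
      have : 2 * X = (2 * Lam) * (N : ℝ) ^ (1 + κ) / A := by rw [hX]; ring
      rw [this, Real.div_rpow (by positivity) hA0.le, Real.mul_rpow (by positivity) (by positivity),
        ← Real.rpow_mul hN0.le, Real.rpow_neg hA0.le, div_eq_mul_inv]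
    have f3 : (N : ℝ) ^ ((1 + κ) * (α / 2)) * (N : ℝ) ^ (-(1 / 2 + κ)) = (N : ℝ) ^ (-(2 * κ)) := by
      rw [← Real.rpow_add hN0]
      congr 1
      linarith
    have f4 : A * A ^ (-(α / 2)) = A ^ (1 - α / 2) := by
      rw [sub_eq_add_neg, Real.rpow_add hA0, Real.rpow_one]
    have f5 : C3 * A * (r : ℝ) ^ (α / 2) * (N : ℝ) ^ (-(1 / 2 + κ)) ≤
        D * A ^ (1 - α / 2) * (N : ℝ) ^ (-(2 * κ)) := by
      calc C3 * A * (r : ℝ) ^ (α / 2) * (N : ℝ) ^ (-(1 / 2 + κ))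
          ≤ C3 * A * (2 * X) ^ (α / 2) * (N : ℝ) ^ (-(1 / 2 + κ)) := by gcongr
        _ = C3 * (2 * Lam) ^ (α / 2) * (A * A ^ (-(α / 2))) *
            ((N : ℝ) ^ ((1 + κ) * (α / 2)) * (N : ℝ) ^ (-(1 / 2 + κ))) := by rw [f2]; ring
        _ = _ := by rw [f3, f4]
    have f6 : D * A ^ (1 - α / 2) ≤ 1 / 8 * A ^ (2 : ℝ) := by
      have g1 : A ^ (2 : ℝ) = A ^ (1 + α / 2) * A ^ (1 - α / 2) := by
        rw [← Real.rpow_add hA0]
        congr 1
        ring
      have g2 : A ≤ A ^ (1 + α / 2) := by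
        calc A = A ^ (1 : ℝ) := (Real.rpow_one A).symm
          _ ≤ _ := Real.rpow_le_rpow_of_exponent_le hA1 (by linarith)
      rw [g1, ← mul_assoc]
      apply mul_le_mul_of_nonneg_right _ (by positivity)
      linarith
    have h2 : (th N) ^ 2 ≤ (A / 2 * (N : ℝ) ^ (-κ)) ^ 2 := by
      have g1 : (A / 2 * (N : ℝ) ^ (-κ)) ^ 2 = 1 / 4 * (A ^ (2 : ℝ) * (N : ℝ) ^ (-(2 * κ))) := by
        have g2 : ((N : ℝ) ^ (-κ)) ^ 2 = (N : ℝ) ^ (-(2 * κ)) := by
          rw [← Real.rpow_natCast, ← Real.rpow_mul hN0.le]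
          congr 1
          push_cast
          ring
        rw [mul_pow, g2, Real.rpow_two]
        ring
      rw [g1]
      have g3 : D * A ^ (1 - α / 2) * (N : ℝ) ^ (-(2 * κ)) ≤
          1 / 8 * A ^ (2 : ℝ) * (N : ℝ) ^ (-(2 * κ)) := by gcongr
      linarith
    exact le_of_sq_le_sq h2 (by positivity)
  · -- small `N`
    have h1 : (N : ℝ) ^ (1 + κ) ≤ r0 * A := by
      have h2 : Lam * (N : ℝ) ^ (1 + κ) < r0 * A := by
        rwa [hX, div_lt_iff₀ hA0] at hc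
      have h3 : 1 * (N : ℝ) ^ (1 + κ) ≤ Lam * (N : ℝ) ^ (1 + κ) := by gcongr
      linarith
    have h2 : (N : ℝ) ^ κ ≤ A / 2 := by
      have g1 : (N : ℝ) ^ κ = ((N : ℝ) ^ (1 + κ)) ^ (κ / (1 + κ)) := by
        rw [← Real.rpow_mul hN0.le]
        congr 1
        field_simp
      have g2 : ((N : ℝ) ^ (1 + κ)) ^ (κ / (1 + κ)) ≤ (r0 * A) ^ (κ / (1 + κ)) := by gcongr
      have g3 : (r0 * A) ^ (κ / (1 + κ)) ≤ (r0 * A) ^ (1 / 2 : ℝ) := by
        apply Real.rpow_le_rpow_of_exponent_le (by nlinarith)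
        rw [div_le_div_iff₀ (by linarith) (by norm_num)]
        linarith
      have g4 : (r0 * A) ^ (1 / 2 : ℝ) ≤ A / 2 := by
        rw [← Real.sqrt_eq_rpow]
        apply Real.sqrt_le_iff.2
        constructor
        · linarith
        · nlinarith
      rw [g1]
      linarith
    have h3 : 1 ≤ A / 2 * (N : ℝ) ^ (-κ) := by
      rw [Real.rpow_neg hN0.le, ← div_eq_mul_inv, le_div_iff₀ (by positivity)]
      linarith
    linarith

end Pool.Agent.Y686.PL
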