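import Pool.Agent.Y990.PL.Stm2
import Pool.Agent.Y990.PL.Dyad

/-!
# Project PL: mean number of points of a finite set in a cluster (task LINE)
-/

set_option autoImplicit false

open MeasureTheory Set

namespace Pool.Agent.Y686.PL

open Pool.Agent.W783.PC Pool.Agent.W424.PC Pool.Agent.Y990.PL

section gen

variable {Ω : Type*} [MeasurableSpace Ω] {μ : Measure Ω} [IsProbabilityMeasure μ] {α : Type*}

lemma integrable_ind (S : Finset α) (c : α → ℝ) (B : α → Set Ω)
    (hB : ∀ s ∈ S, MeasurableSet (B s)) :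
    Integrable (fun ω => ∑ s ∈ S, c s * (B s).indicator (fun _ => (1 : ℝ)) ω) μ := by
  refine integrable_finsetSum _ fun s hs => ?_
  exact ((integrable_const (1 : ℝ)).indicator (hB s hs)).const_mul _

lemma integral_ind (S : Finset α) (c : α → ℝ) (B : α → Set Ω)
    (hB : ∀ s ∈ S, MeasurableSet (B s)) :
    ∫ ω, ∑ s ∈ S, c s * (B s).indicator (fun _ => (1 : ℝ)) ω ∂μ = ∑ s ∈ S, c s * μ.real (B s) := by
  rw [integral_finsetSum]
  · refine Finset.sum_congr rfl fun s hs => ?_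
    rw [integral_const_mul, integral_indicator_const _ (hB s hs), smul_eq_mul, mul_one]
  · intro s hs
    exact ((integrable_const (1 : ℝ)).indicator (hB s hs)).const_mul _

end gen

variable {n : ℕ}

lemma ct_eq (E : Set (Sym2 (V n))) (L : Finset (V n)) (ω : Cfg n) (x : V n) :
    (ct E L ω x : ℝ) = ∑ y ∈ L, 1 * {ω | y ∈ Kc E ω x}.indicator (fun _ => (1 : ℝ)) ω := by
  classical
  unfold ct
  rw [Finset.card_filter]
  push_cast
  refine Finset.sum_congr rfl fun y _ => ?_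
  rw [one_mul, Set.indicator_apply]
  rfl

lemma meas_CT (E : Set (Sym2 (V n))) (L : Finset (V n)) (l : ℕ) (x : V n) :
    MeasurableSet (CT E L l x) := by
  have h1 : Measurable fun ω => (ct E L ω x : ℝ) := by
    simp_rw [ct_eq]
    refine Finset.measurable_sum _ fun y _ => ?_
    exact (measurable_const.indicator (meas_mem_Kc E x y)).const_mul _
  have h2 : CT E L l x = {ω | (l : ℝ) ≤ (ct E L ω x : ℝ)} := by
    ext ω
    simp [CT]
  rw [h2]
  exact measurableSet_le measurable_const h1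

lemma MX_eq (E : Set (Sym2 (V n))) (L : Finset (V n)) (l : ℕ) :
    MX E L l = ⋃ x ∈ L, CT E L l x := by
  ext ω
  simp [MX, CT]

lemma meas_MX (E : Set (Sym2 (V n))) (L : Finset (V n)) (l : ℕ) : MeasurableSet (MX E L l) := by
  rw [MX_eq]
  exact Finset.measurableSet_biUnion _ fun x _ => meas_CT E L l x

lemma CT_sub_Big (E : Set (Sym2 (V n))) (L : Finset (V n)) (l : ℕ) (x : V n) :
    CT E L l x ⊆ Big E l x := by
  classical
  intro ω h
  unfold CT ct at h
  unfold Big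
  rw [mem_ofPred_eq] at h ⊢
  have h1 : ((L.filter (fun y => y ∈ Kc E ω x) : Finset (V n)) : Set (V n)) ⊆ Kc E ω x := by
    intro y hy
    rw [Finset.mem_coe, Finset.mem_filter] at hy
    exact hy.2
  have h2 := Set.encard_le_encard h1
  rw [Set.encard_coe_eq_coe_finsetCard] at h2
  refine le_trans ?_ h2
  exact_mod_cast h

lemma ct_le_card (E : Set (Sym2 (V n))) (L : Finset (V n)) (ω : Cfg n) (x : V n) :
    ct E L ω x ≤ L.card := by
  classical
  unfold ct
  exact Finset.card_filter_le _ _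

/-- points of one cluster -/
lemma many (E : Set (Sym2 (V n))) (L : Finset (V n)) (l : ℕ) (ω : Cfg n) :
    ∑ _s ∈ ({()} : Finset Unit), (l : ℝ) * (MX E L l).indicator (fun _ => (1 : ℝ)) ω ≤
      ∑ y ∈ L, 1 * (CT E L l y).indicator (fun _ => (1 : ℝ)) ω := by
  classical
  rw [Finset.sum_singleton]
  by_cases h : ω ∈ MX E L l
  · rw [Set.indicator_of_mem h, mul_one]
    obtain ⟨x, hx, hl⟩ := h
    have h1 : ∀ y ∈ L.filter (fun y => y ∈ Kc E ω x), ct E L ω y = ct E L ω x := by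
      intro y hy
      rw [Finset.mem_filter, mem_Kc] at hy
      unfold ct
      congr 1
      apply Finset.filter_congr
      intro z _
      rw [mem_Kc, mem_Kc]
      exact ⟨fun h => hy.2.trans h, fun h => hy.2.symm.trans h⟩
    have h2 : ∑ y ∈ L.filter (fun y => y ∈ Kc E ω x), (1 : ℝ) ≤
        ∑ y ∈ L, 1 * (CT E L l y).indicator (fun _ => (1 : ℝ)) ω := by
      refine le_trans (le_of_eq ?_) (Finset.sum_le_sum_of_subset_of_nonneg
        (Finset.filter_subset (fun y => y ∈ Kc E ω x) L) ?_)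
      · refine Finset.sum_congr rfl fun y hy => ?_
        have h3 : ω ∈ CT E L l y := by
          show l ≤ ct E L ω y
          rw [h1 y hy]
          exact hl
        rw [Set.indicator_of_mem h3, mul_one]
      · intro y _ _
        rw [one_mul]
        exact Set.indicator_nonneg (fun _ _ => zero_le_one) _
    refine le_trans ?_ h2
    rw [Finset.sum_const, nsmul_eq_mul, mul_one]
    have h4 : l ≤ (L.filter (fun y => y ∈ Kc E ω x)).card := hl
    exact_mod_cast h4
  · rw [Set.indicator_of_notMem h, mul_zero]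
    exact Finset.sum_nonneg fun y _ => by
      rw [one_mul]
      exact Set.indicator_nonneg (fun _ _ => zero_le_one) _

/-- the layer cake -/
lemma layer (E : Set (Sym2 (V n))) (L : Finset (V n)) (u : V n) (M : ℕ) (ω : Cfg n) (J : ℕ) :
    min (ct E L ω u : ℝ) ((3 : ℝ) ^ J * M) ≤
      ∑ t ∈ Finset.Icc 1 M, 1 * (CT E L t u).indicator (fun _ => (1 : ℝ)) ω +
      ∑ j ∈ Finset.range J, (2 * 3 ^ j * M : ℝ) *
        (CT E L (3 ^ j * M) u).indicator (fun _ => (1 : ℝ)) ω := by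
  classical
  induction J with
  | zero =>
    simp only [pow_zero, one_mul, Finset.range_zero, Finset.sum_empty, add_zero]
    have h1 : ∀ t : ℕ, (CT E L t u).indicator (fun _ => (1 : ℝ)) ω =
        if t ≤ ct E L ω u then 1 else 0 := by
      intro t
      rw [Set.indicator_apply]
      exact if_congr Iff.rfl rfl rfl
    simp_rw [h1]
    rw [← Finset.sum_filter, Finset.sum_const, nsmul_eq_mul, mul_one]
    have h2 : (Finset.Icc 1 M).filter (fun t => t ≤ ct E L ω u) =
        Finset.Icc 1 (min (ct E L ω u) M) := by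
      ext t
      simp only [Finset.mem_filter, Finset.mem_Icc, le_min_iff]
      tauto
    rw [h2, Nat.card_Icc]
    push_cast [Nat.add_sub_cancel]
    exact le_rfl
  | succ J ih =>
    rw [Finset.sum_range_succ, ← add_assoc]
    have h0 : (0 : ℝ) ≤ (3 : ℝ) ^ J * M := by positivity
    by_cases h : 3 ^ J * M ≤ ct E L ω u
    · have h1 : ω ∈ CT E L (3 ^ J * M) u := h
      rw [Set.indicator_of_mem h1, mul_one]
      have h2 : ((3 : ℝ) ^ J * M) ≤ ct E L ω u := by exact_mod_cast h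
      rw [min_eq_right h2] at ih
      have h3 : min (ct E L ω u : ℝ) ((3 : ℝ) ^ (J + 1) * M) ≤ (3 : ℝ) ^ (J + 1) * M :=
        min_le_right _ _
      have h4 : (3 : ℝ) ^ (J + 1) * M = 3 ^ J * M + 2 * 3 ^ J * M := by ring
      linarith
    · have h1 : ω ∉ CT E L (3 ^ J * M) u := h
      rw [Set.indicator_of_notMem h1, mul_zero, add_zero]
      have h2 : (ct E L ω u : ℝ) ≤ (3 : ℝ) ^ J * M := by
        have : ct E L ω u ≤ 3 ^ J * M := by omega
        exact_mod_cast this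
      rw [min_eq_left h2] at ih
      exact (min_le_left _ _).trans ih

theorem line (hT : S_tight) : S_line := by
  intro a κ ha0 ha1 hκ0 hκ1
  set c0 : ℝ := a / 8 with hc0
  have hc00 : 0 < c0 := by positivity
  refine ⟨18 * (2 * (1 / c0) ^ (1 / (1 + κ))) ^ (1 - κ), by positivity, ?_⟩
  intro n r E L A hr hA hB u hu
  classical
  have hL1 : (1 : ℝ) ≤ L.card := by
    have : 1 ≤ L.card := Finset.card_pos.2 ⟨u, hu⟩
    exact_mod_cast this
  have hA0 : 0 < A := by linarith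
  set q : ℕ → ℝ := fun j => (pm r).real (MX E L j) with hq
  have hq0 : ∀ j, 0 ≤ q j := fun j => measureReal_nonneg
  have hqlast : q (L.card + 1) = 0 := by
    have : MX E L (L.card + 1) = ∅ := by
      ext ω
      simp only [MX, mem_ofPred_eq, mem_empty_iff_false, iff_false, not_exists, not_and, not_le]
      intro x _
      exact Nat.lt_succ_of_le (ct_le_card E L ω x)
    show (pm r).real (MX E L (L.card + 1)) = 0
    rw [this]
    simp
  have hex : ∃ j, 1 ≤ j ∧ q j ≤ c0 := ⟨L.card + 1, by omega, by rw [hqlast]; exact hc00.le⟩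
  set M : ℕ := Nat.find hex with hM
  obtain ⟨hM1, hMq⟩ : 1 ≤ M ∧ q M ≤ c0 := Nat.find_spec hex
  have hMr : (1 : ℝ) ≤ M := by exact_mod_cast hM1
  have hMpos : (0 : ℝ) < M := by linarith
  -- (iv)
  have hMle : (M : ℝ) ≤ 2 * ((A * L.card) / c0) ^ (1 / (1 + κ)) := by
    have hbase : 1 ≤ (A * L.card) / c0 := by
      rw [le_div_iff₀ hc00]
      have : c0 ≤ 1 := by rw [hc0]; linarith
      nlinarith
    rcases Nat.lt_or_ge M 2 with h | h
    · have : M = 1 := by omega
      rw [this]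
      have h2 : 1 ≤ ((A * L.card) / c0) ^ (1 / (1 + κ)) := Real.one_le_rpow hbase (by positivity)
      push_cast
      linarith
    · have h1 : ¬ (1 ≤ M - 1 ∧ q (M - 1) ≤ c0) := Nat.find_min hex (by omega)
      have h2 : c0 < q (M - 1) := by
        by_contra h3
        exact h1 ⟨by omega, not_lt.1 h3⟩
      have hm1 : (1 : ℝ) ≤ ((M - 1 : ℕ) : ℝ) := by
        have : 1 ≤ M - 1 := by omega
        exact_mod_cast this
      have h3 := integral_mono (μ := pm r)
        (integrable_ind ({()} : Finset Unit) (fun _ => ((M - 1 : ℕ) : ℝ)) (fun _ => MX E L (M - 1))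
          (fun _ _ => meas_MX E L _))
        (integrable_ind L (fun _ => 1) (fun y => CT E L (M - 1) y) (fun _ _ => meas_CT E L _ _))
        (fun ω => many E L (M - 1) ω)
      rw [integral_ind _ _ _ (fun _ _ => meas_MX E L _),
        integral_ind _ _ _ (fun _ _ => meas_CT E L _ _), Finset.sum_singleton] at h3
      have h4 : ∑ y ∈ L, 1 * (pm r).real (CT E L (M - 1) y) ≤
          ∑ y ∈ L, A * ((M - 1 : ℕ) : ℝ) ^ (-κ) := by
        refine Finset.sum_le_sum fun y hy => ?_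
        rw [one_mul]
        exact (measureReal_mono (CT_sub_Big E L _ y)).trans (hB y hy (M - 1) (by omega))
      rw [Finset.sum_const, nsmul_eq_mul] at h4
      have h5 : ((M - 1 : ℕ) : ℝ) * c0 ≤ L.card * (A * ((M - 1 : ℕ) : ℝ) ^ (-κ)) := by
        have h6 : ((M - 1 : ℕ) : ℝ) * c0 ≤ ((M - 1 : ℕ) : ℝ) * q (M - 1) := by gcongr
        exact h6.trans (h3.trans h4)
      have hm0 : (0 : ℝ) < ((M - 1 : ℕ) : ℝ) := by linarith
      have h6 : ((M - 1 : ℕ) : ℝ) ^ (1 + κ) ≤ (A * L.card) / c0 := by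
        rw [le_div_iff₀ hc00, Real.rpow_add hm0, Real.rpow_one]
        have h7 : ((M - 1 : ℕ) : ℝ) ^ κ * ((M - 1 : ℕ) : ℝ) ^ (-κ) = 1 := by
          rw [← Real.rpow_add hm0, add_neg_cancel, Real.rpow_zero]
        have h8 : 0 ≤ ((M - 1 : ℕ) : ℝ) ^ κ := by positivity
        calc ((M - 1 : ℕ) : ℝ) * ((M - 1 : ℕ) : ℝ) ^ κ * c0
            = ((M - 1 : ℕ) : ℝ) ^ κ * (((M - 1 : ℕ) : ℝ) * c0) := by ring
          _ ≤ ((M - 1 : ℕ) : ℝ) ^ κ * (L.card * (A * ((M - 1 : ℕ) : ℝ) ^ (-κ))) := by gcongr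
          _ = (((M - 1 : ℕ) : ℝ) ^ κ * ((M - 1 : ℕ) : ℝ) ^ (-κ)) * (A * L.card) := by ring
          _ = A * L.card := by rw [h7, one_mul]
      have h7 : ((M - 1 : ℕ) : ℝ) ≤ ((A * L.card) / c0) ^ (1 / (1 + κ)) := by
        have h8 : ((M - 1 : ℕ) : ℝ) = (((M - 1 : ℕ) : ℝ) ^ (1 + κ)) ^ (1 / (1 + κ)) := by
          rw [← Real.rpow_mul hm0.le]
          have : (1 + κ) * (1 / (1 + κ)) = 1 := by field_simp
          rw [this, Real.rpow_one]
        rw [h8]
        gcongr
      have h8 : (M : ℝ) = ((M - 1 : ℕ) : ℝ) + 1 := by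
        rw [Nat.cast_sub hM1]
        push_cast
        ring
      linarith
  -- (i)
  set b : ℕ → ℝ := fun j => 4 / a * q (3 ^ j * M) with hb
  have hb0 : ∀ j, 0 ≤ b j := fun j => mul_nonneg (by positivity) (hq0 _)
  have hbj : ∀ j, b j ≤ (1 / 2 : ℝ) ^ (2 ^ j) := by
    intro j
    induction j with
    | zero =>
      simp only [hb, pow_zero, one_mul, pow_one]
      calc 4 / a * q M ≤ 4 / a * c0 := by gcongr
        _ = 1 / 2 := by rw [hc0]; field_simp; norm_num
    | succ j ih =>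
      have h1 := (hT n r E L a (3 ^ j * M) u ha0 ha1 hr (Nat.mul_pos (by positivity) hM1)).2
      have h2 : 3 * (3 ^ j * M) = 3 ^ (j + 1) * M := by ring
      rw [h2] at h1
      calc b (j + 1) ≤ 4 / a * (4 / a * (q (3 ^ j * M)) ^ 2) := by
            simp only [hb]
            gcongr
        _ = (b j) ^ 2 := by simp only [hb]; ring
        _ ≤ ((1 / 2 : ℝ) ^ (2 ^ j)) ^ 2 := by gcongr
        _ = (1 / 2 : ℝ) ^ (2 ^ (j + 1)) := by rw [← pow_mul, pow_succ]
  -- (ii)
  set p : ℕ → ℝ := fun j => (pm r).real (CT E L (3 ^ j * M) u) with hp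
  have hp0 : ∀ j, 0 ≤ p j := fun j => measureReal_nonneg
  have hpj : ∀ j, p j ≤ (1 / 2 : ℝ) ^ (2 ^ j - 1) * p 0 := by
    intro j
    induction j with
    | zero => simp
    | succ j ih =>
      have h1 := (hT n r E L a (3 ^ j * M) u ha0 ha1 hr (Nat.mul_pos (by positivity) hM1)).1
      have h2 : 3 * (3 ^ j * M) = 3 ^ (j + 1) * M := by ring
      rw [h2] at h1
      have h3 : p (j + 1) ≤ b j * p j := by
        refine le_trans h1 (le_of_eq ?_)
        simp only [hb, hp, hq]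
        ring
      calc p (j + 1) ≤ b j * p j := h3
        _ ≤ (1 / 2 : ℝ) ^ (2 ^ j) * ((1 / 2 : ℝ) ^ (2 ^ j - 1) * p 0) :=
            mul_le_mul (hbj j) ih (hp0 j) (by positivity)
        _ = (1 / 2 : ℝ) ^ (2 ^ (j + 1) - 1) * p 0 := by
            rw [← mul_assoc, ← pow_add]
            congr 2
            have : 1 ≤ 2 ^ j := Nat.one_le_two_pow
            rw [pow_succ]
            omega
  have hpj2 : ∀ j, p j ≤ 2 * (1 / 4 : ℝ) ^ j * p 0 := by
    intro j
    refine (hpj j).trans (mul_le_mul_of_nonneg_right ?_ (hp0 0))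
    have h1 : 2 * j ≤ (2 ^ j - 1) + 1 := by
      have h2 : 1 ≤ 2 ^ j := Nat.one_le_two_pow
      have h3 : 2 * j ≤ 2 ^ j := by
        rcases j with _ | j
        · simp
        · have : j + 1 ≤ 2 ^ j := Nat.lt_two_pow_self
          rw [pow_succ]
          omega
      omega
    have h2 : (1 / 2 : ℝ) ^ ((2 ^ j - 1) + 1) ≤ (1 / 2 : ℝ) ^ (2 * j) :=
      pow_le_pow_of_le_one (by norm_num) (by norm_num) h1
    have h3 : (1 / 2 : ℝ) ^ (2 * j) = (1 / 4 : ℝ) ^ j := by
      rw [pow_mul]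
      norm_num
    rw [h3, pow_succ] at h2
    linarith
  -- (iii)
  have hp00 : p 0 ≤ A * (M : ℝ) ^ (-κ) := by
    simp only [hp, pow_zero, one_mul]
    exact (measureReal_mono (CT_sub_Big E L _ u)).trans (hB u hu M hM1)
  obtain ⟨J, hJ⟩ : ∃ J : ℕ, L.card ≤ 3 ^ J * M := by
    refine ⟨L.card, ?_⟩
    have h1 : L.card < 3 ^ L.card := Nat.lt_pow_self (by norm_num)
    nlinarith
  have hE : ∑ y ∈ L, (pm r).real {ω | y ∈ Kc E ω u} ≤
      ∑ t ∈ Finset.Icc 1 M, (pm r).real (CT E L t u) +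
      ∑ j ∈ Finset.range J, (2 * 3 ^ j * M : ℝ) * p j := by
    have h1 : ∀ ω, ∑ y ∈ L, 1 * {ω | y ∈ Kc E ω u}.indicator (fun _ => (1 : ℝ)) ω ≤
        ∑ t ∈ Finset.Icc 1 M, 1 * (CT E L t u).indicator (fun _ => (1 : ℝ)) ω +
        ∑ j ∈ Finset.range J, (2 * 3 ^ j * M : ℝ) *
          (CT E L (3 ^ j * M) u).indicator (fun _ => (1 : ℝ)) ω := by
      intro ω
      rw [← ct_eq]
      refine le_trans (le_of_eq ?_) (layer E L u M ω J)
      rw [min_eq_left]
      have := (ct_le_card E L ω u).trans hJ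
      exact_mod_cast this
    have i1 := integrable_ind (μ := pm r) L (fun _ => 1) (fun y => {ω | y ∈ Kc E ω u})
      (fun y _ => meas_mem_Kc E u y)
    have i2 := integrable_ind (μ := pm r) (Finset.Icc 1 M) (fun _ => 1) (fun t => CT E L t u)
      (fun t _ => meas_CT E L t u)
    have i3 := integrable_ind (μ := pm r) (Finset.range J) (fun j => (2 * 3 ^ j * M : ℝ))
      (fun j => CT E L (3 ^ j * M) u) (fun t _ => meas_CT E L _ u)
    have h2 := integral_mono i1 (i2.add i3) h1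
    have h3 := integral_add i2 i3
    have h4 : ∫ ω, ((fun ω => ∑ t ∈ Finset.Icc 1 M, 1 * (CT E L t u).indicator (fun _ => (1 : ℝ)) ω) +
        fun ω => ∑ j ∈ Finset.range J, (2 * 3 ^ j * M : ℝ) *
          (CT E L (3 ^ j * M) u).indicator (fun _ => (1 : ℝ)) ω) ω ∂(pm r) = _ := h3
    rw [h4, integral_ind _ _ _ (fun y _ => meas_mem_Kc E u y),
      integral_ind _ _ _ (fun t _ => meas_CT E L t u),
      integral_ind _ _ _ (fun t _ => meas_CT E L _ u)] at h2
    simpa only [one_mul] using h2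
  have hS1 : ∑ t ∈ Finset.Icc 1 M, (pm r).real (CT E L t u) ≤ A * (2 * (M : ℝ) ^ (1 - κ)) := by
    calc ∑ t ∈ Finset.Icc 1 M, (pm r).real (CT E L t u)
        ≤ ∑ t ∈ Finset.Icc 1 M, A * (t : ℝ) ^ (-κ) := by
          refine Finset.sum_le_sum fun t ht => ?_
          rw [Finset.mem_Icc] at ht
          exact (measureReal_mono (CT_sub_Big E L _ u)).trans (hB u hu t ht.1)
      _ = A * ∑ t ∈ Finset.Icc 1 M, (t : ℝ) ^ (-κ) := by rw [Finset.mul_sum]
      _ ≤ A * (2 * (M : ℝ) ^ (1 - κ)) := by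
          gcongr
          exact sum_rpow_le κ hκ0.le hκ1.le M
  have hS2 : ∑ j ∈ Finset.range J, (2 * 3 ^ j * M : ℝ) * p j ≤ 16 * (A * (M : ℝ) ^ (1 - κ)) := by
    have h1 : (M : ℝ) ^ (1 - κ) = M * (M : ℝ) ^ (-κ) := by
      rw [sub_eq_add_neg, Real.rpow_add hMpos, Real.rpow_one]
    have h2 : ∑ j ∈ Finset.range J, (3 / 4 : ℝ) ^ j ≤ 4 := by
      rw [geom_sum_eq (by norm_num)]
      have : (0 : ℝ) ≤ (3 / 4) ^ J := by positivity
      rw [div_le_iff_of_neg (by norm_num)]
      linarith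
    calc ∑ j ∈ Finset.range J, (2 * 3 ^ j * M : ℝ) * p j
        ≤ ∑ j ∈ Finset.range J, (2 * 3 ^ j * M : ℝ) * (2 * (1 / 4 : ℝ) ^ j * (A * (M : ℝ) ^ (-κ))) := by
          refine Finset.sum_le_sum fun j _ => ?_
          apply mul_le_mul_of_nonneg_left _ (by positivity)
          refine (hpj2 j).trans ?_
          gcongr
      _ = ∑ j ∈ Finset.range J, (4 * (A * (M : ℝ) ^ (1 - κ))) * (3 / 4 : ℝ) ^ j := by
          refine Finset.sum_congr rfl fun j _ => ?_
          rw [h1, div_pow, div_pow, one_pow]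
          ring
      _ = (4 * (A * (M : ℝ) ^ (1 - κ))) * ∑ j ∈ Finset.range J, (3 / 4 : ℝ) ^ j := by
          rw [Finset.mul_sum]
      _ ≤ (4 * (A * (M : ℝ) ^ (1 - κ))) * 4 := by gcongr
      _ = _ := by ring
  have hfin : (M : ℝ) ^ (1 - κ) ≤ (2 * (1 / c0) ^ (1 / (1 + κ))) ^ (1 - κ) *
      (A * L.card) ^ ((1 - κ) / (1 + κ)) := by
    have h1 : (M : ℝ) ^ (1 - κ) ≤ (2 * ((A * L.card) / c0) ^ (1 / (1 + κ))) ^ (1 - κ) :=
      Real.rpow_le_rpow hMpos.le hMle (by linarith)
    refine h1.trans (le_of_eq ?_)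
    have h2 : ∀ Z : ℝ, 0 ≤ Z → (2 * (Z / c0) ^ (1 / (1 + κ))) ^ (1 - κ) =
        (2 * (1 / c0) ^ (1 / (1 + κ))) ^ (1 - κ) * Z ^ ((1 - κ) / (1 + κ)) := by
      intro Z hZ
      have h3 : Z / c0 = (1 / c0) * Z := by ring
      rw [h3, Real.mul_rpow (by positivity) hZ, ← mul_assoc,
        Real.mul_rpow (by positivity) (by positivity), ← Real.rpow_mul hZ]
      congr 2
      ring
    exact h2 _ (by positivity)
  calc ∑ y ∈ L, (pm r).real {ω | y ∈ Kc E ω u}
      ≤ A * (2 * (M : ℝ) ^ (1 - κ)) + 16 * (A * (M : ℝ) ^ (1 - κ)) := by linarith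
    _ = 18 * A * (M : ℝ) ^ (1 - κ) := by ring
    _ ≤ 18 * A * ((2 * (1 / c0) ^ (1 / (1 + κ))) ^ (1 - κ) *
      (A * L.card) ^ ((1 - κ) / (1 + κ))) := by gcongr
    _ = _ := by ring

end Pool.Agent.Y686.PL
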